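import Pool.Agent.H174.GM.Stmts2

set_option autoImplicit false
set_option linter.all false

namespace Pool.Agent.H407.GM174.QP

open Finset Pool.Agent.H174.GM

theorem qpsi (h1 : S_Q) (h2 : S_BETA) (h3 : S_EAI) : Pool.Agent.H174.GM.S_QPSI := by
  intro k
  obtain ⟨β, hβ, hβ0, hpsi⟩ := h2 k
  obtain ⟨κ, hκ⟩ := h1 k β hβ
  have hai := h3 k
  have hq := hκ (E k) xx hai
  have hp := hpsi (E k) xx
  -- nonvanishing from a point
  have hne : ∀ P : MvPolynomial (Fin k) ℚ, P ≠ 0 → MvPolynomial.aeval (xx (k := k)) P ≠ 0 := by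
    intro P hP h
    exact hP (hai.eq_zero_of_aeval_eq_zero P h)
  have hdb : db (xx (k := k)) ≠ 0 := by
    unfold db
    refine mul_ne_zero (Finset.prod_ne_zero_iff.2 fun i _ => ?_)
      (Finset.prod_ne_zero_iff.2 fun p hp => mul_ne_zero ?_ ?_)
    · have h : (1 - 2 * MvPolynomial.X i : MvPolynomial (Fin k) ℚ) ≠ 0 := by
        intro h
        have := congrArg (MvPolynomial.eval (fun _ => (0 : ℚ))) h
        simp at this
      have := hne _ h
      rwa [map_sub, map_one, map_mul, map_ofNat, MvPolynomial.aeval_X] at this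
    · have hpq : p.1 ≠ p.2 := by
        unfold pairs at hp
        exact (Finset.mem_filter.1 hp).2.ne
      have h : (MvPolynomial.X p.1 - MvPolynomial.X p.2 : MvPolynomial (Fin k) ℚ) ≠ 0 := by
        intro h
        exact hpq (MvPolynomial.X_injective (sub_eq_zero.1 h))
      have := hne _ h
      rwa [map_sub, MvPolynomial.aeval_X, MvPolynomial.aeval_X] at this
    · have h : (1 - MvPolynomial.X p.1 - MvPolynomial.X p.2 : MvPolynomial (Fin k) ℚ) ≠ 0 := by
        intro h
        have := congrArg (MvPolynomial.eval (fun _ => (0 : ℚ))) h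
        simp at this
      have := hne _ h
      rwa [map_sub, map_sub, map_one, MvPolynomial.aeval_X, MvPolynomial.aeval_X] at this
  have hβu : MvPolynomial.aeval (fun i => uu (xx (k := k) i)) β ≠ 0 := by
    set β' : MvPolynomial (Fin k) ℚ :=
      MvPolynomial.aeval (fun i => (MvPolynomial.X i * (1 - MvPolynomial.X i) :
        MvPolynomial (Fin k) ℚ)) β with hβ'
    have e : MvPolynomial.aeval (fun i => uu (xx (k := k) i)) β =
        MvPolynomial.aeval (xx (k := k)) β' := by
      rw [hβ', MvPolynomial.comp_aeval_apply]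
      congr 2
      funext i
      rw [map_mul, map_sub, map_one, MvPolynomial.aeval_X]
      rfl
    rw [e]
    apply hne
    intro h0
    -- a rational point where `β` does not vanish
    have hex : ∃ t : Fin k → ℚ, MvPolynomial.eval t β ≠ 0 := by
      by_contra hcon
      push Not at hcon
      apply hβ0
      apply MvPolynomial.funext
      intro t
      rw [hcon t, map_zero]
    obtain ⟨t, ht⟩ := hex
    have hs : ∀ i, ∃ s : ℂ, s * (1 - s) = (t i : ℂ) := by
      intro i
      obtain ⟨r, hr⟩ := IsAlgClosed.exists_pow_nat_eq (1 - 4 * (t i : ℂ)) (n := 2) (by norm_num)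
      exact ⟨(1 + r) / 2, by linear_combination (-1 / 4 : ℂ) * hr⟩
    choose s hs using hs
    have e2 : MvPolynomial.aeval s β' = algebraMap ℚ ℂ (MvPolynomial.eval t β) := by
      rw [hβ', MvPolynomial.comp_aeval_apply]
      have e3 : (fun i => MvPolynomial.aeval s ((MvPolynomial.X i * (1 - MvPolynomial.X i) :
          MvPolynomial (Fin k) ℚ))) = fun i => algebraMap ℚ ℂ (t i) := by
        funext i
        rw [map_mul, map_sub, map_one, MvPolynomial.aeval_X, hs]
        rfl
      rw [e3]
      exact (MvPolynomial.aeval_algebraMap_apply ℂ t β).trans (by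
        rw [MvPolynomial.aeval_eq_eval])
    rw [h0, map_zero] at e2
    apply ht
    apply (algebraMap ℚ ℂ).injective
    rw [← e2, map_zero]
  refine ⟨κ * (-1) ^ k, ?_, ?_⟩
  · intro h0
    rw [h0, map_zero, zero_mul, zero_mul, zero_mul] at hq
    exact mul_ne_zero (pow_ne_zero 2 hβu) hdb hq
  · rw [hp, mul_pow]
    linear_combination db (xx (k := k)) * hq

end Pool.Agent.H407.GM174.QP
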