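import Pool.Agent.H174.GM.Stmts2

set_option autoImplicit false
set_option linter.all false

namespace Pool.Agent.H407.GM174

open Finset Pool.Agent.H174.GM

/-- the product of the variables -/
theorem prod_xx (k N : ℕ) : (∏ i : Fin k, (xx i : E k)) ^ N =
    HahnSeries.single (toLex fun _ => (N : ℤ)) (1 : ℚ) := by
  have h1 : ∀ s : Finset (Fin k), ∏ i ∈ s, (xx i : E k) =
      HahnSeries.single (∑ i ∈ s, toLex (Pi.single i (1 : ℤ))) (1 : ℚ) := by
    intro s
    induction s using Finset.induction_on with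
    | empty => simp
    | insert a s ha ih =>
      rw [Finset.prod_insert ha, Finset.sum_insert ha, ih, xx, HahnSeries.single_mul_single,
        one_mul]
  rw [h1, HahnSeries.single_pow, one_pow]
  suffices he : (N • ∑ i : Fin k, toLex (Pi.single i (1 : ℤ)) : Ex k) =
      toLex fun _ => (N : ℤ) by rw [he]
  apply ofLex.injective
  funext l
  have h2 : ofLex (N • ∑ i : Fin k, toLex (Pi.single i (1 : ℤ))) =
      N • ∑ i : Fin k, (Pi.single i (1 : ℤ) : Fin k → ℤ) := rfl
  rw [h2, Pi.smul_apply, Finset.sum_apply]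
  have h3 : ∑ c : Fin k, (Pi.single c (1 : ℤ) : Fin k → ℤ) l = 1 := by
    rw [Finset.sum_eq_single l]
    · exact Pi.single_eq_same _ _
    · intro b _ hb
      exact Pi.single_eq_of_ne (Ne.symm hb) _
    · intro h
      exact absurd (Finset.mem_univ _) h
  rw [h3]
  simp

theorem regn (h1 : S_EH1) (h2 : S_EH3) (h3 : S_XF) : Pool.Agent.H174.GM.S_REGN := by
  intro k N f g hf hg
  -- the second factor
  have hfree1 : ∀ l : Fin k, Free l (1 : E k) := by
    intro l
    have := (h3 k l).2.2.2.2.2.1 1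
    rwa [map_one] at this
  have hGe1 : ∀ l : Fin k, Ge l 0 (1 : E k) := fun l => (hfree1 l).1
  have hinv : ∀ l i : Fin k, Ge l 0 ((1 - xx i : E k)⁻¹) := by
    intro l i
    by_cases hil : i = l
    · subst hil
      exact ((h3 k i).2.2.2.2.1 i).2.2
    · have hx : Free l (xx i : E k) := (h3 k l).2.2.2.1 i hil
      have hx' : Free l (-(xx i) : E k) := ((h3 k l).2.2.2.2.2.2.2 _ hx).1
      have h4 : Free l (1 - xx i : E k) := by
        rw [sub_eq_add_neg]
        exact ((h3 k l).2.2.2.2.2.2.1 _ _ (hfree1 l) hx').1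
      exact ((h3 k l).2.2.2.2.2.2.2 _ h4).2.1
  have hmul : ∀ (l : Fin k) (a b : E k), Ge l 0 a → Ge l 0 b → Ge l 0 (a * b) := by
    intro l a b ha hb
    have := (h1 k l 0 0 a b).1 ha hb
    rwa [add_zero] at this
  have hprod : ∀ (l : Fin k) (s : Finset (Fin k)), Ge l 0 (∏ i ∈ s, (1 - xx i : E k)⁻¹) := by
    intro l s
    induction s using Finset.induction_on with
    | empty => rw [Finset.prod_empty]; exact hGe1 l
    | insert a s ha ih =>
      rw [Finset.prod_insert ha]
      exact hmul l _ _ (hinv l a) ih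
  have hpow : ∀ (l : Fin k) (M : ℕ), Ge l 0 ((∏ i, (1 - xx i : E k)⁻¹) ^ M) := by
    intro l M
    induction M with
    | zero => rw [pow_zero]; exact hGe1 l
    | succ M ih => rw [pow_succ]; exact hmul l _ _ ih (hprod l _)
  set g' : E k := g * (∏ i, (1 - xx i : E k)⁻¹) ^ N with hg'
  have hg'0 : ∀ l, Ge l 0 g' := fun l => hmul l _ _ (hg l) (hpow l N)
  -- nonvanishing
  have hx0 : ∀ i : Fin k, (xx i : E k) ≠ 0 := by
    intro i h
    have := (h3 k i).1.1
    rw [h] at this
    exact this (by simp)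
  have h1x0 : ∀ i : Fin k, (1 - xx i : E k) ≠ 0 := by
    intro i h
    have := ((h3 k i).2.2.2.2.1 i).1.1
    rw [h] at this
    exact this (by simp)
  have hP : (∏ i : Fin k, (xx i : E k)) ^ N ≠ 0 :=
    pow_ne_zero _ (Finset.prod_ne_zero_iff.2 fun i _ => hx0 i)
  set h : E k := f * g / (∏ i, uu (xx i)) ^ N with hh
  have hkey : f * g' = h * (∏ i : Fin k, (xx i : E k)) ^ N := by
    have e1 : (∏ i : Fin k, uu (xx i : E k)) = (∏ i : Fin k, (xx i : E k)) *
        ∏ i : Fin k, (1 - xx i : E k) := by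
      rw [← Finset.prod_mul_distrib]
      rfl
    have e2 : (∏ i : Fin k, (1 - xx i : E k)⁻¹) = (∏ i : Fin k, (1 - xx i : E k))⁻¹ := by
      rw [Finset.prod_inv_distrib]
    have hQ : (∏ i : Fin k, (1 - xx i : E k)) ≠ 0 := Finset.prod_ne_zero_iff.2 fun i _ => h1x0 i
    have hQ' : (∏ i : Fin k, (xx i : E k)) ≠ 0 := Finset.prod_ne_zero_iff.2 fun i _ => hx0 i
    rw [hg', hh, e1, e2, mul_pow, inv_pow]
    field_simp
  rw [prod_xx] at hkey
  have hcoef : (f * g').coeff ((toLex fun _ => (-1 : ℤ)) + toLex fun _ => (N : ℤ)) = res h := by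
    rw [hkey, HahnSeries.coeff_mul_single_add, mul_one]
    rfl
  by_contra hne
  have hc : (f * g').coeff ((toLex fun _ => (-1 : ℤ)) + toLex fun _ => (N : ℤ)) ≠ 0 := by
    rw [hcoef]; exact hne
  have hmem := HahnSeries.support_mul_subset (HahnSeries.mem_support _ _ |>.2 hc)
  obtain ⟨a, ha, b, hb, hab⟩ := Set.mem_add.1 hmem
  obtain ⟨-, l, hl⟩ := hf a ((HahnSeries.mem_support _ _).1 ha)
  have hbl : 0 ≤ ofLex b l := hg'0 l b ((HahnSeries.mem_support _ _).1 hb)
  have e : ofLex a l + ofLex b l = -1 + (N : ℤ) := by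
    have := congrArg (fun γ : Ex k => ofLex γ l) hab
    exact this
  omega

end Pool.Agent.H407.GM174
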